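import Mathlib
import Pool.Agent.N780.CC.Defs
import Pool.Agent.N780.CC.GEN
import Pool.Agent.N780.CC.KER
import Pool.Agent.N780.CC.DUAL
import Pool.Agent.N780.CC.PAIR
import Pool.Agent.N780.CC.IND
import Pool.Agent.N780.CC.GENZ
import Pool.Agent.N780.CC.SPR

/-!
# Dense ordinary reduction of cyclic covers of the line with one transcendental branch point

Let `k` be a field of characteristic `0`, `m ≥ 2`, and `X` the smooth projective curve
`y ^ m = (x - t) ^ a0 ∏ (x - l j) ^ a j` over `k`, where `a0` is prime to `m`, `0 ≤ a0, a j < m` and the
`l j` are distinct. (`∞` may be a branch point.) Every cyclic cover of the line of degree `m` which is totally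
ramified at some point is of this form, for each choice of a totally ramified point `t ≠ ∞`.

**Theorem.** Let `X_c`, `c ∈ ι`, be finitely many such curves (of any degrees `m c`), with the branch
points `t (s c)`, `l c j`, and possibly `∞`. The `l c j` are arbitrary, for example algebraic numbers; the
`t σ` are algebraically independent over the field generated by all the `l c j`. Let `A ⊂ k` be a finitely
generated ring over which the curves are defined, and `g ≠ 0` in `A`. Then for all large prime numbers `p`
which are `1` modulo all the `m c` there is a closed point of `Spec A` of characteristic `p` with `g ≠ 0`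
at which all the blocks of the Hasse-Witt matrices of all the curves are invertible.

For `g` divisible by the `m c` and by the discriminants the reductions are smooth. Write
`y ^ m = ∏ f e ^ e`. The forms `x ^ b (∏ f e ^ ⌊i e / m⌋) dx / y ^ i`, `0 ≤ b < dim m i a0 a`,
`1 ≤ i < m`, are a basis of the space of regular differential forms. For `p ≡ 1` modulo `m` the Cartier
operator maps the form `x ^ b (∏ f e ^ ⌊i e / m⌋) dx / y ^ i` to `∏ f e ^ ⌊i e / m⌋ / y ^ i` times the Cartier
operator of `x ^ b ∏ f e ^ ((i e mod m) (p - 1) / m) dx`. So its matrix has the blocks `hw p (dim m i a0 a) (..)`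
of the theorem, and the curve is ordinary if and only if these are invertible. Products of ordinary
varieties are ordinary. So the closed points at which the product of the curves `X_c` has ordinary
reduction are dense in `Spec A`.

Proof. Let `k` be a field of characteristic `p ≡ 1` modulo `m`, `T` a variable. Let `W` be the space of the
regular differential forms over `k(T)` in the `i`-th eigenspace which are exact, `W'` the analogous
space for `m - i`. The residue theorem shows that `U(T) V(T) = 0` for `U ∈ W`, `V ∈ W'` (`PAIR`: the
derivative of `U` with respect to `T` is exact, and it pairs to zero with `V`). So all elements of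
`W` or all elements of `W'` vanish at the branch point `T`; in the first case `W` is mapped to itself by the
derivation with respect to `T`, and then its elements vanish at `T` to order at least
`p - (i a0 mod m) (p - 1) / m` (`IND`), so `W = 0`; in the same way `W' = 0` in the second case. And `W = 0`
if and only if `W' = 0` (`DUAL`). For `m = 2` this is the argument of the starting theorems
`MovingSeveralPoints` (`MP_2ca583_ag`) and `TranscendentalBranchPoint`.
-/

set_option autoImplicit false

open Polynomial

namespace Pool.Agent.Results.MP_adc574_ag.CyclicCovers

open Pool.Agent.N780.CC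

/-- Dense ordinary reduction of finite families of cyclic covers
`y ^ m = (x - t) ^ a0 ∏ (x - l j) ^ a j` of the projective line with one transcendental branch point each. The
curves are given by polynomials `f e` over a finitely generated ring `A`, as `y ^ m = ∏ f e ^ e`. -/
theorem result {k σ ι : Type} [Field k] [CharZero k] [Finite σ] [Fintype ι]
    -- finitely many curves `y ^ m = (x - t) ^ a0 ∏ (x - l j) ^ a j`
    (m n : ι → ℕ) (hm : ∀ c, 2 ≤ m c) (l : ∀ c, Fin (n c) → k) (hl : ∀ c, Function.Injective (l c))
    (a : ∀ c, Fin (n c) → ℕ) (ha : ∀ c j, a c j < m c) (a0 : ι → ℕ) (ha0 : ∀ c, a0 c < m c)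
    (hco : ∀ c, Nat.Coprime (a0 c) (m c)) (t : σ → k) (s : ι → σ)
    -- the `t`'s are algebraically independent over the field generated by all the `l c j`
    (ht : AlgebraicIndependent (IntermediateField.adjoin ℚ (⋃ c, Set.range (l c))) t)
    -- a finitely generated ring over which the curves are defined, a nonempty open set
    (A : Subalgebra ℤ k) (hA : A.FG) (f : ι → ℕ → A[X])
    (hf : ∀ c e, (f c e).map (algebraMap A k) =
      (if e = a0 c then X - C (t (s c)) else 1) * ∏ j with a c j = e, (X - C (l c j)))
    (g : A) (hg : g ≠ 0) :
    ∃ N : ℕ, ∀ p : ℕ, N ≤ p → p.Prime → (∀ c, m c ∣ p - 1) → ∃ M : Ideal A, M.IsMaximal ∧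
      (p : A) ∈ M ∧ g ∉ M ∧ ∀ c, ∀ i, 1 ≤ i → i < m c →
        (hw p (dim (m c) i (a0 c) (a c)) (∏ e ∈ Finset.range (m c),
          (f c e).map (Ideal.Quotient.mk M) ^ ((i * e % m c) * ((p - 1) / m c)))).det ≠ 0 :=
  part_SPR (part_GENZ (part_GEN part_KER part_DUAL part_PAIR part_IND)) k σ ι m n hm l hl a ha a0
    ha0 hco t ht s A hA f hf g hg

end Pool.Agent.Results.MP_adc574_ag.CyclicCovers
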