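import Mathlib
import Pool.Agent.N780.SB.Defs
import Pool.Agent.N780.SB.Defs9
import Pool.Agent.N780.SB.TWY

/-!
# Ordinary reduction of double and cyclic coverings of curves with a moving simple branch point

Let `K` be a separably closed field of characteristic `p` with a derivation `δ` with `δ ^ p = 0`, for
example the separable closure of `k(t)`, `k` algebraically closed, with `δ = d/dt`. Let `C → ℙ¹` be a
covering of degree `n` over `K` with function field `F`, which is branched over finitely many constant
points `S` (`δ c = 0` for `c ∈ S`), over infinity (possibly), and over one moving point `x = t`, `δ t = 1`,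
where it has simple ramification. In terms of the discriminant: the coordinate ring `A` of the preimage
of `ℙ¹ - (S ∪ {∞})` is a free module over `O = K[x, 1/(x - c) : c ∈ S]` whose discriminant is `x - t` up to
units. (`S` may contain constants over which `C` is not branched.) Let `C → C₀ → ℙ¹` be the largest
intermediate covering which is not branched over `x = t`.

Let `S₁` be a subset of `S`, let `h` be the product of the `(x - c) ^ e_c`, `c ∈ S₁`, `0 ≤ e_c ≤ m`, and `y ^ m = h`. The
curve `H` given by `y ^ m = h(x)` is a cyclic covering of the line, defined over the constants, and `D`, with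
function field `F(y)`, is the covering of `C` pulled back from `H → ℙ¹`. Over the point `x = t` the covering
`D → ℙ¹` has several simple ramification points; the theorem on simple branch points (SimpleBranchPoint)
does not apply to it. As `h` is a unit of `A`, the functions in `F y` which are regular over `ℙ¹ - (S ∪ {∞})` are
the `f y` with `f` in `A`, and `d(f y) = g y dx` with `g = f' + f h' / (m h)` (`twM`).

**Theorem.** Let `p > n`, `p > m` and `p > 2 n (n - 1) |S|`. We consider the exact holomorphic forms `d(f y) = g y dx`,
`f` in `A`, on `D`, and the following property of `(e_c)` (`GoodM`): For all these forms `g` is a function on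
`C₀`. If there are no intermediate coverings of `C → ℙ¹`, then all these forms are pull-backs of forms
`d(r y)` on `H`, `r` in `K(x)`, and they are zero if `∑ (m - e_c) ≤ m`.
(1) At least one of the systems `(e_c)` and `(m - e_c)` has this property.
(2) For `m = 2`, `e_c = 1`, the double coverings `D`, this property holds. In particular, if there are no
intermediate coverings of `C → ℙ¹`, then the exact holomorphic forms `g √h dx` on `D` are pull-backs of forms on
`H`, and zero if `|S₁| ≤ 2`.

Here a holomorphic form is called exact if the Cartier operator maps it to `0`, equivalently if it is the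
derivative of a regular function on a given affine open subset. A curve is ordinary if and only if it
has no such forms except `0`. Let `C → ℙ¹` be without intermediate coverings. Then `C` is ordinary
(SimpleBranchPoint). The Jacobian of `D` is isogenous to `Jac(H) × Jac(C) × P`. If `m = 2` then (2) means that `P` is
ordinary. So `D` is ordinary if and only if `H` is, and always if `|S₁| ≤ 2`: these are the double coverings
of `C` given by `√(x - c₁)` or by `√((x - c₁) (x - c₂))`. If `m` is arbitrary and `p ≡ 1` modulo `m` then the same is true:
For a character `χ` of the group of the `m`-th roots of unity let `a(χ)` be the dimension of the space of the exact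
holomorphic forms in the `χ`-part of the complement `N` of `H¹(H)` in `H¹_dR(D)`. As `F`, `V` preserve the
`χ`-part and the exact holomorphic forms are `Ker F ∩ Im F`, the duality between the `χ`-part and the `χ⁻¹`-part shows
`a(χ) = a(χ⁻¹)`. By (1) one of these numbers is zero. So `D` is ordinary if and only if `H` is. For instance, the
quotients `y ^ m = x ^ a (1 - x) ^ b` of the Fermat curves are ordinary for `p ≡ 1` modulo `m`, hence all the coverings
`D` with function field `F((x ^ a (1 - x) ^ b) ^ (1/m))` are ordinary, too.

So in characteristic zero: let `C` have a simple transcendental branch point `t`, and no intermediate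
coverings. The double coverings `D` of `C` given by `√(x - c₁)` and `√((x - c₁) (x - c₂))`, with `t` transcendental
over `c₁`, `c₂` and the other branch points, have ordinary reduction at almost all primes (at the
generic points of the special fibres, hence at a dense set of closed points). The cyclic coverings `D` of `C`
given by `(x ^ a (1 - x) ^ b) ^ (1/m)` have ordinary reduction at almost all primes `p ≡ 1` modulo `m`, and so on.

Proof. Let `∂` be the derivation of `F(y)` with `∂ x = 0` extending `δ`; then `∂ y = 0`. Let `g y dx = d(f y)` and
`g' y' dx = d(f' y')` be holomorphic, where `y'` belongs to the system `(m - e_c)`, so that `y y' = q` is a function in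
`K(x)`. The residues of `∂(f y) · g' y' dx`, a form on `C`, vanish outside of the ramified point `P` over `x = t`,
and at `P` the residue is `-g(P) g'(P) q(t) / 4` up to normalisation. So all `g` or all `g'` vanish at `P`. If all `g`
vanish at `P`, then `∂g y dx = d(∂f y)` is again holomorphic and exact. Now the two expansions of `g q` at `P` in
powers of `±√(x - t)` agree up to order `p` if `∂g` is a function on `C₀`, and the bound for the number of poles of
`g q` implies that they are equal. As `∂ ^ p = 0`, descending induction shows that all `g` are functions on
`C₀`, and averaging over the fibres of `C → ℙ¹` shows the rest.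
-/

set_option autoImplicit false

namespace Pool.Agent.Results.MP_adc574_ag.DoubleCoverings

open Pool.Agent.N780.SB

universe u v

/-- `g y dx`, `y ^ m = ∏ (x - c) ^ e_c`, `c ∈ S₁`, is holomorphic at all points over `S` and over infinity of the
covering with function field `F(y)`: the expansions of `g y` are the products of an expansion of
`g` and an `m`-th root of the same expansion of `h` (`HolM`). -/
def Holo {K : Type u} {F : Type v} [Field K] [Field F] [Algebra (RatFunc K) F] (S S₁ : Finset K)
    (m : ℕ) (e : K → ℕ) (g : F) : Prop :=
  ∀ E : ℕ, (E : K) ≠ 0 → HolM S S₁ m e E g

/-- Double and cyclic coverings, pulled back from the line, of curves with a moving simple branch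
point: exact holomorphic forms. -/
theorem result {K : Type u} {F : Type v} [Field K] [IsSepClosed K] [Field F]
    -- a covering of degree `n`, characteristic `p > n`
    [Algebra (RatFunc K) F] (p n : ℕ) (hp : p.Prime) [CharP K p] (hn : 2 ≤ n) (hnp : n < p)
    -- a derivation of `K` of order `p`, the moving point `t`, the constant points `S`
    (δ : Derivation ℤ K K) (hδ : ∀ a : K, δ^[p] a = 0) (t : K) (ht : δ t = 1)
    (S : Finset K) (hS : ∀ c ∈ S, δ c = 0) (hpS : 2 * (n * (n - 1)) * S.card < p)
    -- the affine curve `A` over `ℙ¹ - (S ∪ {∞})`, with discriminant `x - t` up to units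
    (a : Fin n → F) (hA : IsAffineCurve S t a)
    -- the derivation `d/dx`
    (D : Derivation ℤ F F) (hx : D (xF K F) = 1) (hc : ∀ b : K, D (cF F b) = 0)
    (S₁ : Finset K) (hS₁ : S₁ ⊆ S) :
    -- (1) the cyclic coverings `y ^ m = ∏ (x - c) ^ e_c`: the part of `y` or of the dual exponents
    (∀ (m : ℕ) (e : K → ℕ), 0 < m → m < p → (∀ c ∈ S₁, e c ≤ m) →
      GoodM D S t a S₁ m e (Holo S S₁ m e) ∨
        GoodM D S t a S₁ m (fun c => m - e c) (Holo S S₁ m (fun c => m - e c))) ∧
    -- (2) the double coverings `y ^ 2 = ∏ (x - c)`
    GoodM D S t a S₁ 2 (fun _ => 1) (Holo S S₁ 2 (fun _ => 1)) := by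
  have key : ∀ (m : ℕ) (e : K → ℕ), 0 < m → m < p → (∀ c ∈ S₁, e c ≤ m) →
      GoodM D S t a S₁ m e (Holo S S₁ m e) ∨
        GoodM D S t a S₁ m (fun c => m - e c) (Holo S S₁ m (fun c => m - e c)) :=
    fun m e hm hmp he => cyclic p n hp inferInstance hn hnp δ hδ t ht S hS hpS a hA D hx hc S₁ hS₁ m
      hm hmp e he
  exact ⟨key, (key 2 (fun _ => 1) two_pos (by omega) (fun _ _ => one_le_two)).elim id id⟩

end Pool.Agent.Results.MP_adc574_ag.DoubleCoverings
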