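import Pool.Agent.N397.HO.Fam

/-!
# Dense ordinary reduction of hyperkähler varieties over arbitrary fields of characteristic zero

Let `k` be an algebraically closed field of characteristic `0`, `X` a smooth projective variety over
`k`, and `X_A → Spec A` a smooth projective model over a finitely generated ring `A ⊂ k`. Suppose that
`X` is a hyperkähler variety (irreducible symplectic of any deformation type, with `b_2 ≥ 3`, so also a
K3 surface; or an abelian surface), or, more generally, that `X` is built from hyperkähler varieties and
from varieties which are potentially ordinary at almost all places (for example varieties of CM type) by
products, projective bundles, blow-ups in centers of this type, and surjective images.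

**Theorem.** The closed points `s ∈ Spec A` where `X_s` is ordinary (the Newton polygon of the
crystalline cohomology is equal to the Hodge polygon, in all degrees; for `A` sufficiently localized
this is ordinarity in the sense of Bloch and Kato) are dense in `Spec A`. Moreover, for every point
`φ : A → K` of `Spec A` with values in a number field the places `v` of `K` such that `X` is ordinary
at the reduction of `φ` modulo `v` have positive lower density.

Idea of the proof. For one hyperkähler variety over a number field, `MP_17d720_ag` (project HK) shows
that it is ordinary in all degrees at a good place of degree one if the trace of the Frobenius on
`H²(1)` is not in a certain finite set `F` of integers. For several hyperkähler varieties one needs an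
element `σ` of the Galois group such that the traces of `σ` on all the representations `H²(1)`
avoid the finite sets; `σ` should also lie in a given neighbourhood `U` of the identity. Near the
identity the only element of `F` which is taken is the trace `b_2` of the identity. We show that the
trace is not `b_2` on all of a nonempty open set `O`: otherwise all elements `g ∈ O` are unipotent, as
this is true for Frobenius elements in `O` (their eigenvalues have absolute value one, and their sum is
`b_2`), so the function `n ↦ tr (g ^ n w)` is a polynomial; let `V` be an open normal subgroup with
`g V ⊂ O`, `m ≥ 1` with `g ^ m ∈ V`, and `w ∈ V`; then `g ^ (1 + m j) w ∈ g V` for all `j`; so the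
polynomial is constant and `tr w = b_2` for all `w ∈ V`, in contradiction to Sen's theorem. So
finitely many closed sets without interior have to be avoided. Chebotarev's theorem gives the places.

For `A` of positive dimension one specializes: every nonempty open subset of `Spec A` has a point with
values in a number field, and its fibre is again a hyperkähler variety.

Direct summands: if `V ⊕ C` is ordinary, and the Newton polygons of `V`, `C` lie above the Hodge
polygons with the same end points, then `V` is ordinary (second moments of the slopes).
-/

set_option autoImplicit false

namespace Pool.Agent.Results.MP_adc574_ag.HyperkaehlerVarieties

open Pool.Agent.N397.HO Pool.Agent.W528.Ord NumberField IsDedekindDomain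

/-- **Dense ordinary reduction of hyperkähler varieties and of the varieties built from them.** Let `A`
be a finitely generated domain of characteristic zero, and `V` a smooth projective family over `Spec A`
whose cohomology is built from the one of families of hyperkähler varieties (and of families which
are potentially ordinary at almost all places) by products, sums, Tate twists and direct summands. The
closed points of `Spec A` with ordinary fibre are dense, and over each number field point the places
with ordinary reduction have positive lower density. -/
theorem result {A : Type} [CommRing A] [IsDomain A] [CharZero A] [Algebra.FiniteType ℤ A] {ℓ : ℕ}
    [Fact ℓ.Prime] (V : Fam A) (hV : Built ℓ V) :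
    Dense {s : PrimeSpectrum A | s.asIdeal.IsMaximal ∧ V.Ord s} ∧
    ∀ (K : Type) [Field K] [NumberField K] (φ : A →+* K),
      0 < lowerDensity fun v : HeightOneSpectrum (𝓞 K) =>
        ∃ s : PrimeSpectrum A, s.asIdeal.IsMaximal ∧ IsReduction φ v s.asIdeal ∧ V.Ord s :=
  ⟨dense_ord hV, fun _ _ _ φ => density_point hV φ⟩

end Pool.Agent.Results.MP_adc574_ag.HyperkaehlerVarieties
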