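import Mathlib
import Pool.Agent.N780.SB.Defs
import Pool.Agent.N780.SB.Fin
import Pool.Agent.N780.SB.PW
import Pool.Agent.N780.SB.PU1
import Pool.Agent.N780.SB.PU2
import Pool.Agent.N780.SB.TT

/-!
# Ordinary reduction of curves with a moving simple branch point

Let `K` be a separably closed field of characteristic `p` with a derivation `δ` with `δ ^ p = 0`, for
example the separable closure of `k(t)`, `k` algebraically closed, with `δ = d/dt`. Let `C → ℙ¹` be a
covering of degree `n` over `K` with function field `F`, which is branched over finitely many constant
points `S` (`δ c = 0` for `c ∈ S`), over infinity (possibly), and over one moving point `x = t`, `δ t = 1`,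
where it has simple ramification. In terms of the discriminant: the coordinate ring `A` of the preimage
of `ℙ¹ - (S ∪ {∞})` is a free module over `O = K[x, 1/(x - c) : c ∈ S]` whose discriminant is `x - t` up to
units. (An order with this discriminant is automatically the full ring of regular functions.)

**Theorem.** Let `p > n` and `p ≥ n (n - 1) (|S| - 1)`. Let `C → C₀ → ℙ¹` be the largest intermediate covering
which is not branched over the moving point `x = t` (all its branch points are constant).
(1) Every exact holomorphic differential form on `C` is the pull-back of such a form on `C₀`.
(2) If the covering `C → ℙ¹` has no intermediate coverings, then `C` is ordinary.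

Here a holomorphic form `ω` on `C` is called exact if the Cartier operator maps it to `0`, in other words
if it is locally exact, equivalently if `ω = df` on a given affine open subset. The curve `C` is
ordinary if and only if it has no such forms `ω ≠ 0`. The space of the holomorphic forms on `C` is the sum
of the forms on `C₀` and of the forms with trace `0` over `C₀`, both stable under the Cartier operator, which
is injective on the second summand by (1). So (1) means: the complement of `Jac(C₀)` in `Jac(C)` (the
generalised Prym variety of `C → C₀`) is ordinary, in particular `C` is ordinary if and only if `C₀` is,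
and the `a`-numbers of `C` and `C₀` are equal. The functions on `C₀` are the functions in `F` whose
expansions at the points over `x = t` are all series in `x - t` (`Unr`).

So every curve over a field of characteristic zero with a simple transcendental branch point has
ordinary reduction at almost all primes (at the generic points of the special fibres, hence at a
dense set of closed points), provided that the curve `C₀` with constant branch points has.

Proof. Let `g dx` be holomorphic and exact, `g = D f`. The derivation `∂` of `F` with `∂ x = 0` extending `δ`
commutes with `D`. The residues of `∂f · g dx` vanish outside of the ramified point `P` over `x = t`, since the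
other branch points are constant, and at `P` the residue is `-g(P)²/4` up to normalisation. So the
residue theorem gives: `g dx` vanishes at `P`, hence `∂g dx = d(∂f)` is again holomorphic and exact. Suppose that
`∂g` is a function on `C₀`. Then the two expansions of `g` at `P` in powers of `±√(x - t)` agree up to
order `p`, and the bound for the number of poles of `g` implies that they are equal. So `g` is a function
on `C₀`. Since `∂ ^ p = 0`, descending induction shows that all `∂^i g` are functions on `C₀`, and averaging
over the fibres of `C → C₀` shows that `g dx` is exact on `C₀`.
-/

set_option autoImplicit false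

namespace Pool.Agent.Results.MP_adc574_ag.SimpleBranchPoint

open Pool.Agent.N780.SB

universe u v

/-- `g dx` is holomorphic at all points of the curve over `S` and over infinity -/
def Holo {K : Type u} {F : Type v} [Field K] [Field F] [Algebra (RatFunc K) F] (S : Finset K)
    (g : F) : Prop :=
  ∀ E : ℕ, (E : K) ≠ 0 → (∀ c ∈ S, HolFin E c g) ∧ HolInf K E g

/-- Coverings of the line with a moving simple branch point: exact holomorphic forms come from the
largest intermediate covering which is not branched there, and are zero if the covering is
indecomposable. -/
theorem result {K : Type u} {F : Type v} [Field K] [IsSepClosed K] [Field F]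
    -- a covering of degree `n`, characteristic `p > n`
    [Algebra (RatFunc K) F] (p n : ℕ) (hp : p.Prime) [CharP K p] (hn : 2 ≤ n) (hnp : n < p)
    -- a derivation of `K` of order `p`, the moving point `t`, the constant points `S`
    (δ : Derivation ℤ K K) (hδ : ∀ a : K, δ^[p] a = 0) (t : K) (ht : δ t = 1)
    (S : Finset K) (hS : ∀ c ∈ S, δ c = 0) (hpS : n * (n - 1) * (S.card - 1) ≤ p)
    -- the affine curve `A` over `ℙ¹ - (S ∪ {∞})`, with discriminant `x - t` up to units
    (a : Fin n → F) (hA : IsAffineCurve S t a)
    -- the derivation `d/dx`
    (D : Derivation ℤ F F) (hx : D (xF K F) = 1) (hc : ∀ b : K, D (cF F b) = 0) :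
    -- (1) exact holomorphic forms come from the largest intermediate covering unramified over `x = t`
    (∀ f, InA S a f → Holo S (D f) → ∃ f₁, InA S a f₁ ∧ Unr t f₁ ∧ D f₁ = D f) ∧
    -- (2) coverings without intermediate coverings
    ((∀ L : IntermediateField (RatFunc K) F, L = ⊥ ∨ L = ⊤) →
      ∀ f, InA S a f → Holo S (D f) → D f = 0) := by
  have hn0 : 0 < n := by omega
  have htS : t ∉ S := fun h => by
    have := hS t h
    rw [ht] at this
    exact one_ne_zero this
  obtain ⟨E, hE0, hEp, hE1, hE2⟩ := part_PU2 part_PW (part_PU1 part_PW) K F p n hp inferInstance
    hn0 hnp hA.rank S
  have hEK : (E : K) ≠ 0 := fun h => hEp ((CharP.cast_eq_zero_iff K p E).1 h)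
  have hT := part_TT part_PW (part_PU2 part_PW (part_PU1 part_PW)) part_TR K F p n hp inferInstance
    hn0 hnp (by omega) S t htS a hA
  obtain ⟨h1, h2⟩ := strong K F p n E hp inferInstance hn hnp δ hδ t ht S hS hpS hEp a hA hE1 hE2
    hT D hx hc
  exact ⟨fun f hf hh => h1 f hf (hh E hEK).1 (hh E hEK).2,
    fun h f hf hh => h2 h f hf (hh E hEK).1 (hh E hEK).2⟩

end Pool.Agent.Results.MP_adc574_ag.SimpleBranchPoint
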